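import Pool.Agent.Helper43.NG.Asm2

/-!
# MP_d69e80_al: growth and Mahler measures for metabelian-by-nilpotent groups

Let `S` be a finite symmetric generating set of an arbitrary group `G`, let `H` be a subgroup of index
at most `d`, let `k ≥ 1` and `Γ = γ_{k+1}(H)`.  Either `ρ_S ≥ log 2 / (72 (k + 1) 2^k (2 d - 1))`, or
`ρ_S ≥ min (1, log M(x)) / (576 (k + 1) 2^k (2 d - 1))` for an algebraic unit `x`, not a root of unity,
which is an eigenvalue of an element of `H` on `Γ/Γ'` or of an element of `Γ` on `Γ'/Γ''`, or the two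
groups `H/Γ'` and `Γ/Γ''` are virtually nilpotent.

So Lehmer's conjecture implies a growth gap, for every fixed `k`, for all
(nilpotent-by-abelian)-by-(nilpotent of class at most `k`) groups `G` for which `Γ` or `G/Γ'` is not
virtually nilpotent, and by Dobrowolski's theorem `ρ_S ≥ c / ((k + 1) 2^k (log (2 m)) ^ 3)` for these
groups if the ranks of `Γ/Γ'` and `Γ'/Γ''` are at most `m`.  The library has the case `k = 1` (derived
length three).

The proof combines the geometric lemma of `NilpotentQuotients` (lines along minimal words whose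
letters are commutators of weight at most `k`, see there) with the counting theorem and the algebra
of the library file `MahlerBoundDerivedLengthThree`.

Lean proof by helper3, helper30, helper38, helper43 (author), helper49, helper54.
-/

set_option autoImplicit false

namespace Pool.Agent.Results.MP_d69e80_al.MahlerBoundNilpotentQuotients

open Filter Topology Polynomial
open scoped Pointwise

universe u

/-- Conjugation by `t` on the abelianization `N^ab` (written additively) of a normal subgroup `N`,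
as an endomorphism of the abelian group `N^ab`. -/
noncomputable def conjAb {G : Type*} [Group G] (N : Subgroup G) [N.Normal] (t : G) :
    Module.End ℤ (Additive (Abelianization N)) :=
  (MonoidHom.toAdditive
    (Abelianization.map (MulAut.conjNormal t : N ≃* N).toMonoidHom)).toIntLinearMap

/-- `z` is an eigenvalue of `t` on `N^ab`: a common zero of all the polynomials `p ∈ ℤ[X]` such that
`p(t) = 0` on `N^ab`. -/
def EigenvalueOn {H : Type*} [Group H] (N : Subgroup H) [N.Normal] (t : H) (z : ℂ) : Prop :=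
  ∀ p : ℤ[X], aeval (conjAb N t) p = 0 → aeval z p = 0

/-- The Mahler measure of (the minimal polynomial over `ℤ` of) an algebraic integer. -/
noncomputable def mahler (x : ℂ) : ℝ := ((minpoly ℤ x).map (Int.castRingHom ℂ)).mahlerMeasure

/-- `x` is an algebraic unit and not a root of unity. -/
def UnitNotRoot (x : ℂ) : Prop :=
  x ≠ 0 ∧ IsIntegral ℤ x ∧ IsIntegral ℤ x⁻¹ ∧ ∀ n > 0, x ^ n ≠ 1

/-- The torsion-free rank of `N^ab` is at most `m`. -/
def RankLE {H : Type u} [Group H] (N : Subgroup H) (m : ℕ) : Prop :=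
  Module.rank ℤ (Additive (Abelianization N)) ≤ (m : Cardinal.{u})

/-- The term `Γ = γ_{k+1}(H)` of the lower central series of `H` (so `k = 1` gives `H'`). -/
abbrev gam (H : Type*) [Group H] (k : ℕ) : Subgroup H := (⊤ : Subgroup H).lowerCentralSeries k

/-- The derived subgroup `Γ'` of `Γ = γ_{k+1}(H)`, as a (normal) subgroup of `H`. -/
abbrev gam1 (H : Type*) [Group H] (k : ℕ) : Subgroup H := ⁅gam H k, gam H k⁆

/-- `H/Γ'` and `Γ/Γ''` are virtually nilpotent (and `Γ` is virtually nilpotent if `Γ'` is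
nilpotent). -/
def Exceptional (H : Type*) [Group H] (k : ℕ) : Prop :=
  Group.IsVirtuallyNilpotent (H ⧸ gam1 H k) ∧
    Group.IsVirtuallyNilpotent (gam H k ⧸ derivedSeries (gam H k) 2) ∧
    (Group.IsNilpotent (gam1 H k) → Group.IsVirtuallyNilpotent (gam H k))

/-- `x` is an eigenvalue of an element of `H` on `Γ/Γ'` or of an element of `Γ` on `Γ'/Γ''`. -/
def Eigen (H : Type*) [Group H] (k : ℕ) (x : ℂ) : Prop :=
  (∃ t : H, EigenvalueOn (gam H k) t x) ∨ ∃ t ∈ gam H k, EigenvalueOn (gam1 H k) t x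

/-- The bound by `log 2`, or by the Mahler measure of an eigenvalue of an element of `H` on `Γ/Γ'`
or of an element of `Γ` on `Γ'/Γ''`. -/
def Bound (H : Type*) [Group H] (k d : ℕ) (ρ : ℝ) : Prop :=
  Real.log 2 / (72 * (k + 1) * 2 ^ k * (2 * d - 1)) ≤ ρ ∨
    ∃ x : ℂ, UnitNotRoot x ∧ Eigen H k x ∧
      min 1 (Real.log (mahler x)) / (576 * (k + 1) * 2 ^ k * (2 * d - 1)) ≤ ρ

/-- The bound by the ranks of `Γ/Γ'` and `Γ'/Γ''`. -/
def RankBound (c : ℝ) (H : Type u) [Group H] (k d : ℕ) (ρ : ℝ) : Prop :=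
  ∀ m : ℕ, RankLE (gam H k) m → RankLE (gam1 H k) m →
    c / ((k + 1) * 2 ^ k * d * Real.log (2 * m) ^ 3) ≤ ρ

/-- There is an absolute `c > 0` such that: for every group `G`, every finite symmetric generating
set `S` of `G`, every `k ≥ 1` and every subgroup `H` of index at most `d` the growth rate `ρ` of `S`
exists, and, with `Γ = γ_{k+1}(H)`, either `H/Γ'` and `Γ/Γ''` are virtually nilpotent, or
`Bound H k d ρ` holds, and moreover `ρ ≥ c / ((k + 1) 2^k d (log 2m)^3)` for every upper bound `m`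
for the (torsion-free) ranks of `Γ/Γ'` and `Γ'/Γ''`. -/
theorem result :
    ∃ c : ℝ, 0 < c ∧
      ∀ (G : Type u) [Group G] (S : Set G) (k : ℕ) (H : Subgroup G) (d : ℕ), S.Finite →
      S⁻¹ = S → Subgroup.closure S = ⊤ → 1 ≤ k → H.index ≠ 0 → H.index ≤ d →
      ∃ ρ : ℝ, Tendsto (fun n : ℕ => Real.log (Nat.card ↥(S ^ n)) / n) atTop (𝓝 ρ) ∧
        (Exceptional H k ∨ (Bound H k d ρ ∧ RankBound c H k d ρ)) := by
  obtain ⟨c, hc, h⟩ := Pool.Agent.Helper43.NG.fim'.{u}
  refine ⟨c / 18, by positivity, fun G _ S k H d h1 h2 h3 h4 h5 h6 =>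
    ⟨Pool.Agent.H746UG.rho S, Pool.Agent.H746UG.tendsto_rho S, ?_⟩⟩
  have e1 : (4 * (Pool.Agent.Helper43.NG.Ck k : ℝ) * (2 * d - 1)) =
      72 * (k + 1) * 2 ^ k * (2 * d - 1) := by
    unfold Pool.Agent.Helper43.NG.Ck
    push_cast
    ring
  have e2 : (32 * (Pool.Agent.Helper43.NG.Ck k : ℝ) * (2 * d - 1)) =
      576 * (k + 1) * 2 ^ k * (2 * d - 1) := by
    unfold Pool.Agent.Helper43.NG.Ck
    push_cast
    ring
  have h7 := h G S k H d h1 h2 h3 h4 h5 h6
  rw [e1, e2] at h7
  have e3 : ∀ m : ℕ, c / (Pool.Agent.Helper43.NG.Ck k * d * Real.log (2 * m) ^ 3) =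
      c / 18 / ((k + 1) * 2 ^ k * d * Real.log (2 * m) ^ 3) := by
    intro m
    unfold Pool.Agent.Helper43.NG.Ck
    rw [div_div]
    congr 1
    push_cast
    ring
  rcases h7 with h8 | ⟨h8 | ⟨x, t, h9, h10 | h10, h11⟩, h12⟩
  · exact Or.inl h8
  · exact Or.inr ⟨Or.inl h8, fun m hm1 hm2 => by rw [← e3]; exact h12 m hm1 hm2⟩
  · exact Or.inr ⟨Or.inr ⟨x, h9, Or.inl ⟨t, h10⟩, h11⟩,
      fun m hm1 hm2 => by rw [← e3]; exact h12 m hm1 hm2⟩
  · exact Or.inr ⟨Or.inr ⟨x, h9, Or.inr ⟨t, h10⟩, h11⟩,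
      fun m hm1 hm2 => by rw [← e3]; exact h12 m hm1 hm2⟩

end Pool.Agent.Results.MP_d69e80_al.MahlerBoundNilpotentQuotients
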