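import Pool.Agent.Helper43.NG.Asm

/-!
# MP_d69e80_al: growth gap for metabelian-by-nilpotent groups that are not polycyclic

Let `S` be a finite symmetric generating set of an arbitrary group `G`, let `H` be a subgroup of index
at most `d` and let `Γ = γ_{k+1}(H)`, so that `H / Γ` is the largest quotient of `H` that is nilpotent
of class at most `k`.  We prove that either `ρ_S ≥ (log 2) / (72 (k + 1) 2^k (2 d - 1))`, or all
subgroups of `H / Γ''` are finitely generated; in the latter case all subgroups of `G` are finitely
generated if `Γ'` is nilpotent.  (A solvable group all of whose subgroups are finitely generated is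
polycyclic.)  The library has the case `k = 1` (derived length three).

Idea of the proof.  As for `k = 1` one has an affine action of `Γ` on a valued field, a short element
`c` of `Γ` which fixes `0` and is hyperbolic, and one needs many lines, that is, conjugates of this
action by elements `y_1, y_2, …, y_D`, and short elements `d_j` of `Γ`, with conjugates
`z_j d_j z_j⁻¹` which act in a triangular way on these lines, so that the walks through the `y_j` and
through the `z_j` have length `O(D)`.  For `k = 1` the `y_j` are the prefixes of a shortest word `w`
for which `w d w⁻¹` moves `0` for a short commutator `d`, and the `z_j` are obtained by rotating `w`.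
For `k > 1` this fails, since the rotated words differ by commutators which are not in `Γ`.  We use
words whose letters are the commutator expressions of weight at most `k` in the generators, and count
only the letters of the smallest weight `m` that matters.  The subgroup generated by the letters of
weight more than `m`, modulo the conjugates of short elements of `Γ` by words with too few letters of
weight `m`, has a central series on whose factors all the rotated words act trivially, so that one
can correct a rotated word by letters of weight `m + 1`, then by letters of weight `m + 2`, and so on.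
Each correction is made along a shortest word again, and this shortest word provides as many new
lines as it has letters (lemma `REC`): long corrections pay for themselves.  The rest (entropy and
valuations) is as in the library.

Lean proof by helper3, helper30, helper38, helper43 (author), helper49, helper54.
-/

namespace Pool.Agent.Results.MP_d69e80_al.NilpotentQuotients

open Filter Topology
open scoped Pointwise

universe u

/-- The exponential growth rate `ρ_S = lim (1/n) log |S ^ n|`, where `S ^ n` is the set of all
products of `n` elements of `S` (pointwise power of sets). -/
noncomputable def rho {G : Type*} [Group G] (S : Set G) : ℝ :=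
  limUnder atTop (fun n : ℕ => Real.log (Nat.card ↥(S ^ n)) / n)

/-- The term `γ_{k+1}(H)` of the lower central series of `H` (so `k = 1` gives `H'`). -/
abbrev gam (H : Type*) [Group H] (k : ℕ) : Subgroup H := (⊤ : Subgroup H).lowerCentralSeries k

/-- The second derived subgroup `Γ''` of `Γ = γ_{k+1}(H)`, as a (normal) subgroup of `H`. -/
abbrev gam2 (H : Type*) [Group H] (k : ℕ) : Subgroup H :=
  ⁅⁅gam H k, gam H k⁆, ⁅gam H k, gam H k⁆⁆

/-- Let `S` be a finite symmetric generating set of a group `G`.  The limit `ρ_S` exists.  Let
`k ≥ 1`, let `H` be a subgroup of index at most `d` and `Γ = γ_{k+1}(H)`.  Either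
`ρ_S ≥ (log 2) / (72 (k + 1) 2^k (2 d - 1))`, or all subgroups of `H / Γ''` are finitely generated,
and moreover all subgroups of `G` are finitely generated if `Γ' = [Γ, Γ]` is nilpotent. -/
theorem result {G : Type u} [Group G] (S : Set G) (hfin : S.Finite) (hsym : S⁻¹ = S)
    (hgen : Subgroup.closure S = ⊤) :
    Tendsto (fun n : ℕ => Real.log (Nat.card ↥(S ^ n)) / n) atTop (𝓝 (rho S)) ∧
    ∀ k : ℕ, 1 ≤ k → ∀ (H : Subgroup G) (d : ℕ), H.index ≠ 0 → H.index ≤ d →
      Real.log 2 / (72 * (k + 1) * 2 ^ k * (2 * d - 1)) ≤ rho S ∨
        ((∀ K : Subgroup (H ⧸ gam2 H k), K.FG) ∧
          (Group.IsNilpotent (⁅gam H k, gam H k⁆ : Subgroup H) → ∀ K : Subgroup G, K.FG)) := by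
  refine ⟨Pool.Agent.H746UG.tendsto_rho S, ?_⟩
  intro k hk H d hH hd
  have h := Pool.Agent.Helper43.NG.fnn' G S hfin hsym hgen k hk H d hH hd
  have e : (4 * (Pool.Agent.Helper43.NG.Ck k : ℝ) * (2 * d - 1)) =
      72 * (k + 1) * 2 ^ k * (2 * d - 1) := by
    unfold Pool.Agent.Helper43.NG.Ck
    push_cast
    ring
  rw [e] at h
  exact h

end Pool.Agent.Results.MP_d69e80_al.NilpotentQuotients
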